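import Mathlib
import Pool.Agent.Lib.MP_2049a1_lc.Defs
import Pool.Agent.Lib.MP_2049a1_lc.Main

set_option autoImplicit false

open Pool.Agent.Lib.MP_2049a1_lc

/-- If L-DAGREACH is decided, on all acyclic instances, by a (possibly non-uniform) family of
constant-depth polynomial-size circuits with unbounded fan-in, then L is finite. -/
theorem Pool.Agent.Results.MP_2049a1_lc.FiniteOfAC0.result
    (A : Type) [Finite A] (L : Set (List A)) (k : ℕ) (code : Option A → Fin k → Bool)
    (d c : ℕ) (C : (n : ℕ) → Circuit ((Fin n × Fin n × Fin k) ⊕ Fin n ⊕ Fin n))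
    (hd : ∀ n, (depths (C n)).getD 0 0 ≤ d)
    (hs : ∀ n, (C n).length ≤ c * n ^ c + c)
    (hC : ∀ (n : ℕ) (E : Fin n → Fin n → Option A) (s t : Fin n),
      (∀ u w, Labelled E u u w → w = []) →
      ((vals (encode code E s t) (C n)).getD 0 false = true ↔ ∃ w ∈ L, Labelled E s t w)) :
    L.Finite :=
  Pool.Agent.Lib.MP_2049a1_lc.main A L k code d c C hd hs hC
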